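import Pool.Agent.Lib.LC40.Ref

/-! The characterisation of Hermitian norms by shadow boundaries. -/

open Set Filter Topology MeasureTheory

noncomputable section

namespace Pool.Agent.Lib.LC40

open Pool.Agent.Lib.LB40

variable {X : Type} [NormedAddCommGroup X] [InnerProductSpace ℂ X]

/-- The complex line of `v` is killed at `y`. -/
def Kc (Φ : Seminorm ℝ X) (y v : X) : Prop := ∀ c : ℂ, Kil Φ y (c • v)

/-- The killed complex lines form a subspace. -/
def kcS (Φ : Seminorm ℝ X) (y : X) : Submodule ℂ X where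
  carrier := {v | Kc Φ y v}
  add_mem' h h' c := by rw [smul_add]; exact (h c).add (h' c)
  zero_mem' c := by rw [smul_zero]; exact kil_zero Φ y
  smul_mem' a v h c := by rw [smul_smul]; exact h _

/-- A complex norm. -/
structure Nc (Φ : Seminorm ℝ X) : Prop where
  df : ∀ x, Φ x = 0 → x = 0
  hom : ∀ (c : ℂ) y, Φ (c • y) = ‖c‖ * Φ y

/-- Every complex hyperplane has a transversal line killed along it. -/
def Hc (Φ : Seminorm ℝ X) : Prop :=
  ∀ l : X, l ≠ 0 → ∃ q, inner ℂ l q ≠ 0 ∧ ∀ y ≠ 0, inner ℂ l y = 0 → Kc Φ y q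

variable {Φ : Seminorm ℝ X}

theorem Kc.kil {y v : X} (h : Kc Φ y v) : Kil Φ y v := by simpa using h 1

theorem Kc.smul {y v : X} (h : Kc Φ y v) (a : ℂ) : Kc Φ y (a • v) := (kcS Φ y).smul_mem a h

theorem Kc.sub {y v w : X} (h : Kc Φ y v) (h' : Kc Φ y w) : Kc Φ y (v - w) :=
  (kcS Φ y).sub_mem h h'

theorem Kc.add {y v w : X} (h : Kc Φ y v) (h' : Kc Φ y w) : Kc Φ y (v + w) :=
  (kcS Φ y).add_mem h h'

theorem Nc.rad (hn : Nc Φ) {x : X} (hx : x ≠ 0) {a : ℂ} (h : Kc Φ x (a • x)) : a = 0 := by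
  have h1 := h (starRingEnd ℂ a)
  rw [smul_smul, Complex.conj_mul', ← Complex.ofReal_pow, Complex.coe_smul] at h1
  have := kil_rad hn.df hx h1
  exact norm_eq_zero.1 (pow_eq_zero_iff two_ne_zero |>.1 this)

theorem Nc.base (hn : Nc Φ) {x v : X} (h : Kc Φ x v) {a : ℂ} (ha : a ≠ 0) : Kc Φ (a • x) v := by
  intro c
  have h1 := (h (a⁻¹ * c)).const_mul ‖a‖
  rw [mul_zero] at h1
  refine h1.congr_of_eventuallyEq (Eventually.of_forall fun s => ?_)
  beta_reduce
  rw [← hn.hom, smul_add, smul_comm a s, smul_smul a, mul_inv_cancel_left₀ ha]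

theorem Nc.rot (hn : Nc Φ) (x : X) : Kil Φ x (Complex.I • x) := by
  refine kil_of_le fun ε hε => ?_
  have h0 : 0 ≤ Φ x := apply_nonneg Φ x
  filter_upwards [Ioo_mem_nhds (show -(ε / (Φ x + 1)) < 0 from neg_lt_zero.2 (by positivity))
    (show 0 < ε / (Φ x + 1) by positivity)] with s hs
  have e : x + s • Complex.I • x = (1 + s * Complex.I) • x := by
    rw [add_smul, one_smul, mul_smul, Complex.coe_smul]
  have h1 : ‖1 + s * Complex.I‖ ≤ 1 + s ^ 2 := by
    refine (pow_le_pow_iff_left₀ (norm_nonneg _) (by positivity) two_ne_zero).1 ?_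
    rw [Complex.sq_norm, Complex.normSq_apply]
    simp only [Complex.add_re, Complex.one_re, Complex.mul_re, Complex.ofReal_re, Complex.I_re,
      Complex.ofReal_im, Complex.I_im, Complex.add_im, Complex.one_im, Complex.mul_im]
    nlinarith [sq_nonneg s, sq_nonneg (s ^ 2)]
  have h2 : |s| * (Φ x + 1) ≤ ε := (le_div_iff₀ (by positivity)).1 (abs_lt.2 hs).le
  rw [e, hn.hom]
  have h3 := mul_le_mul_of_nonneg_right h1 h0
  have h4 := mul_le_mul_of_nonneg_right h2 (abs_nonneg s)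
  nlinarith [sq_abs s, abs_nonneg s, mul_nonneg (abs_nonneg s) (abs_nonneg s)]

theorem Nc.re (hn : Nc Φ) {x v : X} {a : ℂ} (h : Kil Φ x (v - a • x)) :
    Kil Φ x (v - a.re • x) := by
  have := h.add ((hn.rot x).smul a.im)
  have e : a • x = a.re • x + a.im • Complex.I • x := by
    conv_lhs => rw [← Complex.re_add_im a]
    rw [add_smul, mul_smul, Complex.coe_smul, Complex.coe_smul]
  rwa [e, show v - (a.re • x + a.im • Complex.I • x) + a.im • Complex.I • x = v - a.re • x by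
    abel] at this

variable [FiniteDimensional ℂ X]

theorem exists_perp (h3 : 3 ≤ Module.finrank ℂ X) (a b : X) :
    ∃ d ≠ 0, inner ℂ a d = 0 ∧ inner ℂ b d = 0 := by
  let L : X →ₗ[ℂ] ℂ × ℂ := (innerₛₗ ℂ a).prod (innerₛₗ ℂ b)
  have h : LinearMap.ker L ≠ ⊥ := LinearMap.ker_ne_bot_of_finrank_lt (by
    rw [Module.finrank_prod, Module.finrank_self]
    omega)
  obtain ⟨d, hd, h0⟩ := (Submodule.ne_bot_iff _).1 h
  exact ⟨d, h0, congrArg Prod.fst hd, congrArg Prod.snd hd⟩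

theorem exists_top {P : Submodule ℂ X} (h : P ≠ ⊤) : ∃ l ≠ 0, ∀ y ∈ P, inner ℂ l y = 0 := by
  obtain ⟨l, hl, h0⟩ := (Submodule.ne_bot_iff Pᗮ).1 fun e => h (Submodule.orthogonal_eq_bot_iff.1 e)
  exact ⟨l, h0, fun y hy => Submodule.inner_left_of_mem_orthogonal hy hl⟩

section lim

variable (hn : Nc Φ) (h3 : 3 ≤ Module.finrank ℂ X) {B : Set X} (hB : B.Finite)
  (hq : ∀ l : X, l ≠ 0 → (∀ b ∈ B, ∀ c : ℂ, l ≠ c • b) →
    ∃ q, inner ℂ l q ≠ 0 ∧ ∀ y ≠ 0, inner ℂ l y = 0 → Kc Φ y q)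

include hn h3 hB hq

theorem lim {x l : X} (hl : l ≠ 0) (hx : inner ℂ l x = 0) : ∃ q, inner ℂ l q ≠ 0 ∧
    (∀ y, inner ℂ l y = 0 → ∀ c : ℂ, Mn Φ y (c • q)) ∧ (x ≠ 0 → Kc Φ x q) := by
  obtain ⟨d, d0, dl, dx⟩ := exists_perp h3 l x
  have dl' : inner ℂ d l = 0 := inner_eq_zero_symm.1 dl
  have ll : inner ℂ l l ≠ 0 := fun h => hl (inner_self_eq_zero.1 h)
  have i1 : ∀ (t : ℝ) y, inner ℂ (l + (t : ℂ) • d) y = inner ℂ l y + t * inner ℂ d y := fun t y => by
    rw [inner_add_left, inner_smul_left, Complex.conj_ofReal]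
  have i2 : ∀ t : ℝ, inner ℂ l (l + (t : ℂ) • d) = inner ℂ l l := fun t => by
    rw [inner_add_right, inner_smul_right, dl, mul_zero, add_zero]
  have fin : {t : ℝ | ∃ b ∈ B, ∃ c : ℂ, l + (t : ℂ) • d = c • b}.Finite := by
    refine (hB.biUnion fun b _ => Set.Subsingleton.finite
      (s := {t : ℝ | ∃ c : ℂ, l + (t : ℂ) • d = c • b}) ?_).subset fun t ht => ?_
    · rintro t ⟨c, hc⟩ t' ⟨c', hc'⟩
      have e1 := i2 t
      have e2 := i2 t'
      rw [hc, inner_smul_right] at e1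
      rw [hc', inner_smul_right] at e2
      have e3 : c = c' := mul_right_cancel₀ (right_ne_zero_of_mul (e1 ▸ ll)) (e1.trans e2.symm)
      rw [e3, ← hc', add_right_inj] at hc
      exact_mod_cast smul_left_injective ℂ d0 hc
    · obtain ⟨b, hb, h⟩ := ht
      exact mem_biUnion hb h
  have ex : ∀ n : ℕ, ∃ (t : ℝ) (q : X), t ∈ Ioo (0 : ℝ) (1 / ((n : ℝ) + 1)) ∧ q ∈ Metric.sphere (0 : X) 1 ∧
      ∀ y ≠ 0, inner ℂ (l + (t : ℂ) • d) y = 0 → Kc Φ y q := fun n => by
    obtain ⟨t, ht, h⟩ := (Set.Ioo_infinite (Nat.one_div_pos_of_nat (n := n))).exists_notMem_finite fin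
    obtain ⟨q, q1, q2⟩ := hq (l + (t : ℂ) • d) (fun e => ll (by rw [← i2 t, e, inner_zero_right]))
      fun b hb c e => h ⟨b, hb, c, e⟩
    have q0 : q ≠ 0 := fun e => q1 (by rw [e, inner_zero_right])
    exact ⟨t, ((‖q‖⁻¹ : ℝ) : ℂ) • q, ht, by simp [norm_smul, q0], fun y hy h => (q2 y hy h).smul _⟩
  choose t q ht hs hk using ex
  have := FiniteDimensional.proper_rclike ℂ X
  obtain ⟨p, hp, φ, hφ, lp⟩ := (isCompact_sphere (0 : X) 1).tendsto_subseq hs
  have lt : Tendsto (fun n => t (φ n)) atTop (𝓝 0) :=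
    (squeeze_zero (fun n => (ht n).1.le) (fun n => (ht n).2.le)
      tendsto_one_div_add_atTop_nhds_zero_nat).comp hφ.tendsto_atTop
  have cΦ : Continuous Φ := Φ.convexOn.locallyLipschitz.continuous
  have mn : ∀ y, inner ℂ l y = 0 → ∀ c : ℂ, Mn Φ y (c • p) := fun y hy c s => by
    let w : ℝ → X := fun t => y - ((t : ℂ) * inner ℂ d y / inner ℂ l l) • l
    have cw : Continuous w := by fun_prop
    have w0 : w 0 = y := by simp [w]
    have lw : Tendsto (fun n => w (t (φ n))) atTop (𝓝 y) := w0 ▸ (cw.tendsto 0).comp lt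
    refine le_of_tendsto_of_tendsto' ((cΦ.tendsto _).comp lw)
      ((cΦ.tendsto _).comp (lw.add ((lp.const_smul c).const_smul s))) fun n => ?_
    by_cases h0 : w (t (φ n)) = 0
    · simp only [Function.comp, h0, map_zero]
      exact apply_nonneg Φ _
    · refine (hk (φ n) _ h0 ?_ c).mn s
      simp only [w, i1, inner_sub_right, inner_smul_right, hy, dl']
      field_simp
      ring
  refine ⟨p, fun h => ?_, mn, fun h => ?_⟩
  · have h1 := mn p h 1 (-1)
    rw [one_smul, neg_one_smul, add_neg_cancel, map_zero] at h1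
    have h2 := hn.df p (le_antisymm h1 (apply_nonneg Φ p))
    simp [h2] at hp
  · exact (kcS Φ x).closed_of_finiteDimensional.mem_of_tendsto lp (Eventually.of_forall fun n =>
      hk (φ n) x h (by rw [i1, hx, inner_eq_zero_symm.1 dx, mul_zero, add_zero]))

theorem coef0 {x : X} (hx : x ≠ 0) (v : X) : ∃ a : ℂ, Kc Φ x (v - a • x) := by
  have ht : kcS Φ x ⊔ Submodule.span ℂ {x} = ⊤ := by
    by_contra hne
    obtain ⟨l, hl, h⟩ := exists_top hne
    obtain ⟨q, q1, -, q2⟩ := lim hn h3 hB hq hl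
      (h x (Submodule.mem_sup_right (Submodule.mem_span_singleton_self x)))
    exact q1 (h q (Submodule.mem_sup_left (q2 hx)))
  have hv : v ∈ kcS Φ x ⊔ Submodule.span ℂ {x} := ht ▸ Submodule.mem_top
  obtain ⟨w, hw, p, hp, rfl⟩ := Submodule.mem_sup.1 hv
  obtain ⟨a, rfl⟩ := Submodule.mem_span_singleton.1 hp
  exact ⟨a, by rw [add_sub_cancel_right]; exact hw⟩

theorem hc_of : Hc Φ := fun l hl => by
  obtain ⟨q, q1, q2, -⟩ := lim hn h3 hB hq hl (inner_zero_right l)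
  refine ⟨q, q1, fun y hy h => ?_⟩
  obtain ⟨a, ha⟩ := coef0 hn h3 hB hq hy q
  have h1 := ha (starRingEnd ℂ a)
  rw [smul_sub, smul_smul, Complex.conj_mul', ← Complex.ofReal_pow, Complex.coe_smul] at h1
  have h2 : IsLocalMin (fun s : ℝ => Φ (y + s • starRingEnd ℂ a • q)) 0 :=
    Eventually.of_forall fun s => by simpa using q2 y h (starRingEnd ℂ a) s
  have h4 := (mul_eq_zero.1 (h2.hasDerivAt_eq_zero h1.radial)).resolve_right fun e => hy (hn.df y e)
  have h5 : a = 0 := norm_eq_zero.1 (pow_eq_zero_iff two_ne_zero |>.1 h4)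
  simpa [h5] using ha

end lim

theorem Hc.sup (hq : Hc Φ) (P : Submodule ℂ X) (v : X) :
    ∃ p ∈ P, ∀ y ∈ P, y ≠ 0 → Kc Φ y (v - p) := by
  set N : Submodule ℂ X := ⨅ y : {y // y ∈ P ∧ y ≠ 0}, kcS Φ y.1 with hN
  have hm : ∀ w, w ∈ N ↔ ∀ y ∈ P, y ≠ 0 → Kc Φ y w := fun w => by
    rw [hN, Submodule.mem_iInf]
    exact ⟨fun h y hy h0 => h ⟨y, hy, h0⟩, fun h y => h y.1 y.2.1 y.2.2⟩
  have ht : N ⊔ P = ⊤ := by
    by_contra hne
    obtain ⟨l, hl, hle⟩ := exists_top hne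
    obtain ⟨q, h1, h2⟩ := hq l hl
    have h3 : q ∈ N := (hm q).2 fun y hy h0 => h2 y h0 (hle y (Submodule.mem_sup_right hy))
    exact h1 (hle q (Submodule.mem_sup_left h3))
  have hv : v ∈ N ⊔ P := ht ▸ Submodule.mem_top
  obtain ⟨w, hw, p, hp, rfl⟩ := Submodule.mem_sup.1 hv
  exact ⟨p, hp, by simpa using (hm w).1 hw⟩

theorem Hc.coef (hq : Hc Φ) {x : X} (hx : x ≠ 0) (v : X) : ∃ a : ℂ, Kc Φ x (v - a • x) := by
  obtain ⟨p, hp, h⟩ := hq.sup (Submodule.span ℂ {x}) v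
  obtain ⟨a, rfl⟩ := Submodule.mem_span_singleton.1 hp
  exact ⟨a, h x (Submodule.mem_span_singleton_self x) hx⟩

theorem Hc.plane (hq : Hc Φ) (hn : Nc Φ) {x t w : X} (hx : x ≠ 0) (ht : t ≠ 0)
    (hxt : Kc Φ x t) (h1 : Kc Φ x w) (h2 : Kc Φ t w) (a b : ℂ) (h0 : a • t + b • x ≠ 0) :
    Kc Φ (a • t + b • x) w := by
  obtain ⟨p, hP, h⟩ := hq.sup (Submodule.span ℂ {t, x}) w
  obtain ⟨c, d, rfl⟩ := Submodule.mem_span_pair.1 hP
  have mt : t ∈ Submodule.span ℂ {t, x} := Submodule.subset_span (by simp)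
  have mx : x ∈ Submodule.span ℂ {t, x} := Submodule.subset_span (by simp)
  have h3 := (h1.sub (h x mx hx)).sub (hxt.smul c)
  have hd : d = 0 := hn.rad hx (by
    rwa [show w - (w - (c • t + d • x)) - c • t = d • x by abel] at h3)
  subst hd
  have h4 := h2.sub (h t mt ht)
  have hc : c = 0 := hn.rad ht (by
    rwa [show w - (w - (c • t + (0 : ℂ) • x)) = c • t by rw [zero_smul]; abel] at h4)
  subst hc
  have := h _ (Submodule.mem_span_pair.2 ⟨a, b, rfl⟩) h0
  simpa using this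

/-- The Fourier coefficients along the circle of `x`. -/
def fc (Φ : Seminorm ℝ X) (x : X) (m : ℤ) (z : X) : ℂ :=
  fourierCoeff (fun θ : AddCircle (1 : ℝ) => (Φ (z + fourier 1 θ • x) : ℂ)) m

theorem fc_cont (Φ : Seminorm ℝ X) (x z : X) (m : ℤ) :
    Continuous fun θ : AddCircle (1 : ℝ) => fourier (-m) θ • (Φ (z + fourier 1 θ • x) : ℂ) := by
  have cΦ : Continuous Φ := Φ.convexOn.locallyLipschitz.continuous
  fun_prop

theorem fc_int (Φ : Seminorm ℝ X) (x z : X) (m : ℤ) : Integrable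
    (fun θ : AddCircle (1 : ℝ) => fourier (-m) θ • (Φ (z + fourier 1 θ • x) : ℂ))
    AddCircle.haarAddCircle :=
  (fc_cont Φ x z m).integrable_of_hasCompactSupport (HasCompactSupport.of_compactSpace _)

omit [FiniteDimensional ℂ X] in
theorem norm_four (m : ℤ) (θ : AddCircle (1 : ℝ)) : ‖fourier m θ‖ = 1 := by
  rw [fourier_apply, Circle.norm_coe]

omit [FiniteDimensional ℂ X] in
theorem four_add (m : ℤ) (θ f : AddCircle (1 : ℝ)) :
    fourier m (θ + f) = fourier m θ * fourier m f := by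
  simp only [fourier_apply, smul_add, AddCircle.toCircle_add, Circle.coe_mul]

omit [FiniteDimensional ℂ X] in
theorem pt_le (Φ : Seminorm ℝ X) (m : ℤ) (θ : AddCircle (1 : ℝ)) (y z z' : X) :
    ‖fourier m θ • (Φ (z + y) : ℂ) - fourier m θ • (Φ (z' + y) : ℂ)‖ ≤ Φ (z - z') := by
  rw [← smul_sub, norm_smul, norm_four, one_mul, ← Complex.ofReal_sub, Complex.norm_real]
  exact (abs_sub_map_le_sub Φ _ _).trans_eq (by rw [add_sub_add_right_eq_sub])

theorem fc_lip (Φ : Seminorm ℝ X) (x : X) (m : ℤ) (z z' : X) :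
    ‖fc Φ x m z - fc Φ x m z'‖ ≤ Φ (z - z') := by
  rw [fc, fc, fourierCoeff, fourierCoeff, ← integral_sub (fc_int Φ x z m) (fc_int Φ x z' m)]
  simpa using norm_integral_le_of_norm_le_const (μ := AddCircle.haarAddCircle)
    (Eventually.of_forall fun θ : AddCircle (1 : ℝ) => pt_le Φ (-m) θ (fourier 1 θ • x) z z')

omit [FiniteDimensional ℂ X] in
theorem fc_rot (hn : Nc Φ) (x : X) (m : ℤ) (f : AddCircle (1 : ℝ)) (z : X) :
    fc Φ x m (fourier 1 f • z) = fourier (-m) f * fc Φ x m z := by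
  rw [fc, fc, fourierCoeff, fourierCoeff, ← integral_add_right_eq_self _ f, ← integral_const_mul]
  refine integral_congr_ae (Eventually.of_forall fun θ => ?_)
  beta_reduce
  rw [four_add, four_add, mul_comm (fourier 1 θ), mul_smul (fourier 1 f), ← smul_add, hn.hom,
    norm_four, one_mul, smul_eq_mul, smul_eq_mul]
  ring

omit [FiniteDimensional ℂ X] in
theorem exists_four {e : ℂ} (he : ‖e‖ = 1) : ∃ f : AddCircle (1 : ℝ), fourier 1 f = e := by
  refine ⟨(e.arg / (2 * Real.pi) : ℝ), ?_⟩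
  have h := Complex.norm_mul_exp_arg_mul_I e
  rw [he, Complex.ofReal_one, one_mul] at h
  rw [fourier_coe_apply]
  refine Eq.trans (congrArg Complex.exp ?_) h
  have : (Real.pi : ℂ) ≠ 0 := Complex.ofReal_ne_zero.2 Real.pi_ne_zero
  push_cast
  field_simp

theorem fc_kil {x z v : X} (m : ℤ)
    (h : ∀ θ : AddCircle (1 : ℝ), Kil Φ (z + fourier 1 θ • x) v) :
    Kil (fun z => ‖fc Φ x m z‖) z v := by
  have h1 := (hasDerivAt_integral_of_dominated_loc_of_lip (μ := AddCircle.haarAddCircle)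
    (F := fun (s : ℝ) (θ : AddCircle (1 : ℝ)) =>
      fourier (-m) θ • (Φ (z + s • v + fourier 1 θ • x) : ℂ)) (F' := fun _ => 0) (x₀ := 0)
    (bound := fun _ => Φ v) univ_mem
    (Eventually.of_forall fun s => (fc_cont Φ x _ m).aestronglyMeasurable) (fc_int Φ x _ m)
    aestronglyMeasurable_const
    (Eventually.of_forall fun θ => LipschitzOnWith.of_dist_le_mul fun s _ s' _ => by
      rw [dist_eq_norm, Real.coe_nnabs, abs_of_nonneg (apply_nonneg Φ v), mul_comm, dist_eq_norm,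
        ← map_smul_eq_mul]
      exact (pt_le Φ _ θ _ _ _).trans_eq (by rw [add_sub_add_left_eq_sub, sub_smul]))
    (integrable_const _) (Eventually.of_forall fun θ => by
      have := (h θ).ofReal_comp.const_smul (fourier (-m) θ)
      simp only [Complex.ofReal_zero, smul_zero] at this
      refine this.congr_of_eventuallyEq (Eventually.of_forall fun s => ?_)
      simp only [Pi.smul_apply, add_right_comm])).2
  rw [integral_zero, hasDerivAt_iff_isLittleO] at h1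
  unfold Kil
  rw [hasDerivAt_iff_isLittleO]
  refine (Asymptotics.IsBigO.of_bound 1 (Eventually.of_forall fun s => ?_)).trans_isLittleO h1
  simp only [smul_zero, sub_zero, one_mul]
  exact abs_norm_sub_norm_le _ _

/-- The normalised vector. -/
def un (Φ : Seminorm ℝ X) (c : X) : X := (Φ c)⁻¹ • c

omit [FiniteDimensional ℂ X] in
theorem un_smul (hn : Nc Φ) (a : ℂ) (c : X) : un Φ (a • c) = (a / ‖a‖) • un Φ c := by
  rw [un, un, hn.hom, ← Complex.coe_smul, ← Complex.coe_smul, smul_smul, smul_smul]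
  congr 1
  push_cast
  ring

omit [FiniteDimensional ℂ X] in
theorem nf_smul (hn : Nc Φ) (x : X) (m : ℤ) {a : ℂ} (ha : a ≠ 0) (c : X) :
    ‖fc Φ x m (un Φ (a • c))‖ = ‖fc Φ x m (un Φ c)‖ := by
  obtain ⟨f, hf⟩ := exists_four (e := a / ‖a‖) (by simp [ha])
  rw [un_smul hn, ← hf, fc_rot hn, norm_mul, norm_four, one_mul]

theorem Hc.der (hq : Hc Φ) (hn : Nc Φ) {x c v : X} (m : ℤ) (hx : x ≠ 0) (hc : c ≠ 0)
    (h1 : Kc Φ x c) (h2 : Kc Φ x v) :
    HasDerivAt (fun s : ℝ => ‖fc Φ x m (un Φ (c + s • v))‖) 0 0 := by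
  obtain ⟨C, -, hC⟩ := lip_fd Φ
  obtain ⟨b, hb⟩ := hq.coef hc v
  have cp : Φ c ≠ 0 := fun h => hc (hn.df c h)
  let γ : ℝ → X := fun s => (1 - s * b : ℂ) • (c + s • v)
  have γ0 : γ 0 = c := by simp [γ]
  have d0 : HasDerivAt (fun s : ℝ => (1 - s * b : ℂ)) (-b) 0 := by
    simpa using ((hasDerivAt_id' (0 : ℝ)).ofReal_comp.mul_const b).const_sub 1
  have d1 : HasDerivAt γ (v - b • c) 0 := by
    have := d0.fun_smul (((hasDerivAt_id' (0 : ℝ)).smul_const v).const_add c)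
    refine this.congr_deriv ?_
    simp [sub_eq_add_neg]
  have d2 : HasDerivAt (fun s => Φ (γ s)) 0 0 := (kil_iff_curve hC d1).1 (γ0 ▸ hb.kil)
  have d3 : HasDerivAt (fun s => un Φ (γ s)) ((Φ c)⁻¹ • (v - b • c)) 0 := by
    have := (d2.fun_inv (by rwa [γ0])).fun_smul d1
    simpa [γ0, un] using this
  have d4 := (curve_iff (Φ := fun z => ‖fc Φ x m z‖) (C := C) (a := 0) (fun a b =>
    (abs_norm_sub_norm_le _ _).trans ((fc_lip Φ x m a b).trans (hC _))) d3).2 (by
      refine fc_kil m fun θ => Kil.smul (Kc.kil ?_) _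
      rw [γ0, un, ← Complex.coe_smul]
      refine hq.plane hn hx hc h1 (h2.sub (h1.smul b)) hb _ _ fun h => ?_
      have e := h1.smul (((Φ c)⁻¹ : ℝ) : ℂ)
      rw [eq_neg_of_add_eq_zero_left h, ← neg_smul] at e
      have := norm_four 1 θ
      rw [neg_eq_zero.1 (hn.rad hx e), norm_zero] at this
      exact zero_ne_one this)
  refine d4.congr_of_eventuallyEq ?_
  filter_upwards [d0.continuousAt.eventually_ne (y := 0) (by simp)] with s hs
  exact (nf_smul hn x m hs _).symm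

theorem Hc.zero (hq : Hc Φ) (hn : Nc Φ) (h3 : 3 ≤ Module.finrank ℂ X) {x c : X} {m : ℤ}
    (hx : x ≠ 0) (hc : c ≠ 0) (h1 : Kc Φ x c) (hm : m ≠ 0) : fc Φ x m (un Φ c) = 0 := by
  by_contra hne
  obtain ⟨v, v0, vc, vx⟩ := exists_perp h3 c x
  obtain ⟨a, ha⟩ := hq.coef hx v
  have ind : ∀ p q : ℂ, p • c + q • (v - a • x) = 0 → p = 0 ∧ q = 0 := fun p q h => by
    have e := congrArg (inner ℂ v) h
    rw [inner_add_right, inner_smul_right, inner_smul_right, inner_sub_right, inner_smul_right,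
      inner_eq_zero_symm.1 vc, inner_eq_zero_symm.1 vx, inner_zero_right] at e
    have q0 : q = 0 := by simpa [v0] using e
    rw [q0, zero_smul, add_zero] at h
    exact ⟨(smul_eq_zero.1 h).resolve_right hc, q0⟩
  set d := v - a • x with hd
  let e : ℝ → ℂ := fun f => fourier 1 (f : AddCircle (1 : ℝ))
  have e0 : ∀ f, e f ≠ 0 := fun f h => by simpa [e, h] using (norm_four 1 f).symm.trans (congrArg _ h)
  let h : ℝ × ℝ → X := fun p => e p.1 • c + p.2 • (d - e p.1 • c)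
  have h0 : ∀ p, h p ≠ 0 := fun p hp => by
    have := ind ((1 - p.2) * e p.1) p.2 (by
      rw [← hp]
      simp only [h, ← Complex.coe_smul]
      module)
    rw [this.2, sub_zero, one_mul] at this
    exact e0 _ this.1
  have k1 : ∀ f, Kc Φ x (d - e f • c) := fun f => ha.sub (h1.smul _)
  have k2 : ∀ p, Kc Φ x (h p) := fun p => (h1.smul _).add (by
    rw [← Complex.coe_smul]
    exact (k1 _).smul _)
  have dd : ∀ f τ, HasDerivAt (fun τ : ℝ => ‖fc Φ x m (un Φ (h (f, τ)))‖) 0 τ := fun f τ => by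
    have h4 := hq.der hn m hx (h0 (f, τ)) (k2 _) (k1 f)
    have h5 := HasDerivAt.comp_sub_const τ τ (by rw [sub_self]; exact h4)
    refine h5.congr_of_eventuallyEq (Eventually.of_forall fun s => ?_)
    simp only [h, add_assoc, ← add_smul, add_sub_cancel]
  have nz : ∀ p, fc Φ x m (un Φ (h p)) ≠ 0 := fun p => by
    have := is_const_of_deriv_eq_zero (fun τ => (dd p.1 τ).differentiableAt)
      (fun τ => (dd p.1 τ).deriv) p.2 0
    simp only [h, zero_smul, add_zero, nf_smul hn x m (e0 _)] at this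
    exact norm_ne_zero_iff.1 (this ▸ norm_ne_zero_iff.2 hne)
  obtain ⟨C, hC0, hC⟩ := lip_fd Φ
  have cΦ : Continuous Φ := Φ.convexOn.locallyLipschitz.continuous
  have cf : Continuous (fc Φ x m) := (LipschitzWith.of_dist_le' (K := C) fun a b => by
    rw [dist_eq_norm, dist_eq_norm]
    exact (fc_lip Φ x m a b).trans (hC _)).continuous
  have ce : Continuous e := (fourier 1).continuous.comp (AddCircle.continuous_mk' 1)
  have ch : Continuous h := by fun_prop
  have z1 : e 0 = 1 := fourier_eval_zero 1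
  refine hm (neg_eq_zero.1 (wind (g := fun p => fc Φ x m (un Φ (h p)))
    (cf.comp (((cΦ.comp ch).inv₀ fun p e => h0 p (hn.df _ e)).smul ch)) nz (fun f => ?_)
    (fun τ => ?_) fun f => ?_))
  · simp only [h, zero_smul, add_zero, z1, one_smul]
    rw [un_smul hn, norm_four, Complex.ofReal_one, div_one, fc_rot hn, fourier_coe_apply,
      Complex.ofReal_one, div_one]
  · have z2 : e 1 = 1 := by
      simp only [e, AddCircle.coe_period]
      exact fourier_eval_zero 1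
    simp only [h, z1, z2]
  · simp only [h, one_smul, add_sub_cancel]

theorem Hc.rot (hq : Hc Φ) (hn : Nc Φ) (h3 : 3 ≤ Module.finrank ℂ X) {x t : X} (hx : x ≠ 0)
    (ht : Kc Φ x t) {w w' : ℂ} (hw : ‖w‖ = ‖w'‖) : Φ (t + w • x) = Φ (t + w' • x) := by
  by_cases t0 : t = 0
  · rw [t0, zero_add, zero_add, hn.hom, hn.hom, hw]
  by_cases w0 : w = 0
  · rw [w0, norm_zero, eq_comm, norm_eq_zero] at hw
    rw [w0, hw]
  have tp : Φ t ≠ 0 := fun h => t0 (hn.df t h)
  have a0 : (((Φ t)⁻¹ : ℝ) : ℂ) * w ≠ 0 := mul_ne_zero (by simpa using tp) w0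
  have cΦ : Continuous Φ := Φ.convexOn.locallyLipschitz.continuous
  let F : C(AddCircle (1 : ℝ), ℂ) :=
    ⟨fun θ => (Φ (un Φ t + fourier 1 θ • ((((Φ t)⁻¹ : ℝ) : ℂ) * w) • x) : ℂ), by fun_prop⟩
  have z : ∀ m ≠ 0, fourierCoeff F m = 0 := fun m hm =>
    hq.zero hn h3 (smul_ne_zero a0 hx) t0 (hn.base ht a0) hm
  have s : ∀ θ, F θ = fourierCoeff F 0 := fun θ => by
    have h1 := has_pointwise_sum_fourier_series_of_summable
      (summable_of_ne_finset_zero (s := {0}) fun m hm => z m (by simpa using hm)) θ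
    have h2 := hasSum_single (f := fun i => fourierCoeff F i • fourier i θ) 0 fun m hm => by
      rw [z m hm, zero_smul]
    simpa using h1.unique h2
  obtain ⟨f, hf⟩ := exists_four (e := w' / w) (by
    rw [norm_div, ← hw, div_self (norm_ne_zero_iff.2 w0)])
  have e : ∀ θ : AddCircle (1 : ℝ), F θ = (|(Φ t)⁻¹| * Φ (t + (fourier 1 θ * w) • x) : ℝ) :=
    fun θ => by
    rw [← Real.norm_eq_abs, ← map_smul_eq_mul, smul_add, ← Complex.coe_smul _ (_ • x), smul_smul,
      mul_left_comm, mul_smul]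
    rfl
  have h := (s 0).trans (s f).symm
  rw [e, e, hf, fourier_eval_zero, one_mul, div_mul_cancel₀ _ w0, Complex.ofReal_inj] at h
  exact mul_left_cancel₀ (abs_ne_zero.2 (inv_ne_zero tp)) h

theorem Hc.rf (hq : Hc Φ) (hn : Nc Φ) (h3 : 3 ≤ Module.finrank ℂ X) : Rf Φ where
  df := hn.df
  coef hx v := (hq.coef hx v).imp' Complex.re fun a ha => hn.re ha.kil
  refl {x t} hx ht r := by
    obtain ⟨a, ha⟩ := hq.coef hx t
    have h1 := kil_sub ht (hn.re ha.kil)
    rw [sub_sub_cancel] at h1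
    have h2 := kil_rad hn.df hx h1
    have h4 := hq.rot hn h3 hx ha (w := a + r) (w' := a - r) (by
      rw [Complex.norm_def, Complex.norm_def, Complex.normSq_apply, Complex.normSq_apply]
      simp [h2])
    rw [← map_neg_eq_map Φ (r • x - t), ← Complex.coe_smul]
    rwa [show t - a • x + (a + r) • x = (r : ℂ) • x + t by module,
      show t - a • x + (a - r) • x = -((r : ℂ) • x - t) by module] at h4

/-- A complex norm in dimension at least three with plane shadow boundaries is Euclidean. -/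
theorem kakC (Φ : Seminorm ℝ X) (hp : ∀ x, Φ x = 0 → x = 0)
    (hh : ∀ (c : ℂ) y, Φ (c • y) = ‖c‖ * Φ y) (h3 : 3 ≤ Module.finrank ℂ X) {B : Set X}
    (hB : B.Finite) (hq : ∀ l : X, l ≠ 0 → (∀ b ∈ B, ∀ c : ℂ, l ≠ c • b) →
      ∃ q, inner ℂ l q ≠ 0 ∧ ∀ y ≠ 0, inner ℂ l y = 0 → ∀ c : ℂ, Kil Φ y (c • q)) :
    ∃ B : X →ₗ[ℝ] X →ₗ[ℝ] ℝ, (∀ x y, B x y = B y x) ∧ ∀ x, Φ x ^ 2 = B x x :=
  ((hc_of ⟨hp, hh⟩ h3 hB hq).rf ⟨hp, hh⟩ h3).euc

end Pool.Agent.Lib.LC40
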