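import Pool.Agent.Lib.LB40.Kak

/-! Norms with reflections, and a winding number. -/

open Set Filter Topology

noncomputable section

namespace Pool.Agent.Lib.LC40

open Pool.Agent.Lib.LB40

/-- A loop of degree `m` that contracts has degree zero. -/
theorem wind {g : ℝ × ℝ → ℂ} (hg : Continuous g) (h0 : ∀ p, g p ≠ 0) {m : ℤ}
    (h1 : ∀ f : ℝ, g (f, 0) = Complex.exp (2 * Real.pi * Complex.I * m * f) * g (0, 0))
    (h2 : ∀ τ, g (1, τ) = g (0, τ)) (h3 : ∀ f, g (f, 1) = g (0, 1)) : m = 0 := by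
  have cov := Complex.isCoveringMap_exp
  obtain ⟨F, ⟨-, hF⟩, -⟩ := cov.existsUnique_continuousMap_lifts
    (⟨fun p => ⟨g p, h0 p⟩, hg.subtype_mk _⟩ : C(ℝ × ℝ, {z : ℂ // z ≠ 0})) (0, 0)
    (Complex.log (g (0, 0))) (Subtype.ext (Complex.exp_log (h0 _)))
  have e : ∀ p, Complex.exp (F p) = g p := fun p => congrArg Subtype.val (congrFun hF p)
  have cF := F.continuous
  have a1 : F (1, 0) - F (0, 0) = F (1, 1) - F (0, 1) :=
    cov.const_of_comp (g := fun τ : ℝ => F (1, τ) - F (0, τ)) (by fun_prop) (fun a b => by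
      refine Subtype.ext ?_
      simp only [Complex.exp_sub, e, h2, div_self (h0 _)]) 0 1
  have a2 : F (1, 1) = F (0, 1) :=
    cov.const_of_comp (g := fun f : ℝ => F (f, 1)) (by fun_prop) (fun a b => by
      refine Subtype.ext ?_
      simp only [e]
      rw [h3 a, h3 b]) 1 0
  have a3 := cov.const_of_comp (g := fun f : ℝ => F (f, 0) - 2 * Real.pi * Complex.I * m * f)
    (by fun_prop) (fun a b => by
      refine Subtype.ext ?_
      simp only [Complex.exp_sub, e]
      rw [h1 a, h1 b, mul_div_cancel_left₀ _ (Complex.exp_ne_zero _),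
        mul_div_cancel_left₀ _ (Complex.exp_ne_zero _)]) 1 0
  simp only [Complex.ofReal_one, Complex.ofReal_zero, mul_one, mul_zero, sub_zero] at a3
  have a4 : 2 * Real.pi * Complex.I * m = 0 := by linear_combination a1 + a2 - a3
  exact_mod_cast (mul_eq_zero.1 a4).resolve_left Complex.two_pi_I_ne_zero

variable {X : Type} [NormedAddCommGroup X] [NormedSpace ℝ X]

/-- A differentiable norm with reflections. -/
structure Rf (Φ : Seminorm ℝ X) : Prop where
  df : ∀ x, Φ x = 0 → x = 0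
  coef : ∀ {x : X}, x ≠ 0 → ∀ v, ∃ a : ℝ, Kil Φ x (v - a • x)
  refl : ∀ {x t : X}, x ≠ 0 → Kil Φ x t → ∀ r : ℝ, Φ (r • x + t) = Φ (r • x - t)

variable {Φ : Seminorm ℝ X} [FiniteDimensional ℝ X]

theorem Rf.diag (hq : Rf Φ) {m d : X} (hm : m ≠ 0) (he : Φ (m + d) = Φ (m - d)) : Kil Φ m d := by
  obtain ⟨C, -, hC⟩ := lip_fd Φ
  have hp := hq.df
  have hc := line_cvx Φ m d
  have ln : ∀ s : ℝ, HasDerivAt (fun s : ℝ => m + s • d) d s := fun s => by
    simpa using ((hasDerivAt_id' s).smul_const d).const_add m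
  have h0 : ∀ s ∈ Ioo (-1 : ℝ) 1, m + s • d ≠ 0 := fun s hs h => by
    have h1 : m = (-s) • d := by rw [neg_smul]; exact eq_neg_of_add_eq_zero_left h
    have h2 : m + d = (1 - s) • d := by rw [h1, sub_smul, one_smul, neg_smul]; abel
    have h4 : m - d = -((1 + s) • d) := by rw [h1, add_smul, one_smul, neg_smul]; abel
    rw [h2, h4, map_neg_eq_map, map_smul_eq_mul, map_smul_eq_mul,
      Real.norm_of_nonneg (by linarith [hs.2]), Real.norm_of_nonneg (by linarith [hs.1])] at he
    have h5 : s * Φ d = 0 := by linarith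
    rcases mul_eq_zero.1 h5 with h6 | h6
    · exact hm (by rw [h1, h6]; simp)
    · exact hm (by rw [h1, hp d h6]; simp)
  have h1 : ∀ s : ℝ, ∃ b : ℝ, s ∈ Ioo (-1 : ℝ) 1 →
      HasDerivAt (fun s : ℝ => Φ (m + s • d)) b s := fun s => by
    by_cases hs : s ∈ Ioo (-1 : ℝ) 1
    · obtain ⟨b, hb⟩ := hq.coef (h0 s hs) d
      exact ⟨_, fun _ => (curve_iff (sub_le_lip hC) (ln s)).2 hb.radial⟩
    · exact ⟨0, fun h => absurd h hs⟩
  choose f' hf' using h1
  have he' : Φ (m + (-1 : ℝ) • d) = Φ (m + (1 : ℝ) • d) := by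
    rw [one_smul, he, neg_one_smul, sub_eq_add_neg]
  obtain ⟨s, hs, h2⟩ := exists_hasDerivAt_eq_zero (f := fun s : ℝ => Φ (m + s • d))
    (show (-1 : ℝ) < 1 by norm_num) hc.locallyLipschitz.continuous.continuousOn he' hf'
  have h4 : Kil Φ (m + s • d) d := (kil_iff_curve hC (ln s)).2 (h2 ▸ hf' s hs)
  have h5 : ∀ r : ℝ, Φ (m + (s + r) • d) = Φ (m + (s - r) • d) := fun r => by
    have := hq.refl (h0 s hs) (h4.smul r) 1
    rwa [one_smul, add_assoc, ← add_smul, add_sub_assoc, ← sub_smul] at this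
  rcases lt_trichotomy s 0 with h | h | h
  · have h6 : Kil Φ m (-d) := by
      refine cvx_sym (line_cvx Φ m (-d)) (s := -s) (by linarith) (by simpa using he'.symm)
        fun r => ?_
      have := h5 (-r)
      simp only [smul_neg, ← neg_smul]
      rwa [show -(-s + r) = s + -r by ring, show -(-s - r) = s - -r by ring]
    simpa using h6.smul (-1)
  · simpa [h] using h4
  · exact cvx_sym hc h he' h5

theorem Rf.swap (hq : Rf Φ) {x y : X} (hx : x ≠ 0) (he : Φ x = Φ y) {a : ℝ} (h : Kil Φ x (y - a • x)) :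
    Kil Φ y (x - a • y) := by
  have hp := hq.df
  by_cases hm : x + y = 0
  · have e : y = -x := eq_neg_of_add_eq_zero_right hm
    subst e
    have h1 : -1 - a = 0 := kil_rad hp hx (by rwa [sub_smul, neg_one_smul])
    have h2 : a = -1 := by linarith
    rw [h2]
    simpa using kil_zero Φ (-x)
  have h1 : Kil Φ (x + y) (x - y) := by
    refine hq.diag hm ?_
    rw [show x + y + (x - y) = (2 : ℝ) • x by rw [two_smul]; abel,
      show x + y - (x - y) = (2 : ℝ) • y by rw [two_smul]; abel, map_smul_eq_mul, map_smul_eq_mul,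
      he]
  have h2 : ∀ p q : ℝ, Φ (p • x + q • y) = Φ (p • y + q • x) := fun p q => by
    have := hq.refl hm (h1.smul ((p - q) / 2)) ((p + q) / 2)
    rwa [show ((p + q) / 2) • (x + y) + ((p - q) / 2) • (x - y) = p • x + q • y by module,
      show ((p + q) / 2) • (x + y) - ((p - q) / 2) • (x - y) = p • y + q • x by module] at this
  unfold Kil at h ⊢
  have e : (fun s : ℝ => Φ (y + s • (x - a • y))) = fun s : ℝ => Φ (x + s • (y - a • x)) := by
    funext s
    rw [show y + s • (x - a • y) = (1 - s * a) • y + s • x by module,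
      show x + s • (y - a • x) = (1 - s * a) • x + s • y by module, h2]
  rwa [e]

/-- A differentiable norm with reflections is Euclidean. -/
theorem Rf.euc (hq' : Rf Φ) :
    ∃ B : X →ₗ[ℝ] X →ₗ[ℝ] ℝ, (∀ x y, B x y = B y x) ∧ ∀ x, Φ x ^ 2 = B x x := by
  have hp := hq'.df
  have h1 : ∀ x v : X, ∃ g : ℝ, (x = 0 → g = 0) ∧
      ∀ a : ℝ, x ≠ 0 → Kil Φ x (v - a • x) → g = Φ x ^ 2 * a := fun x v => by
    by_cases hx : x = 0
    · exact ⟨0, fun _ => rfl, fun _ h => absurd hx h⟩
    · obtain ⟨b, hb⟩ := hq'.coef hx v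
      refine ⟨Φ x ^ 2 * b, fun h => absurd h hx, fun a _ ha => ?_⟩
      have h2 := kil_sub ha hb
      rw [show v - a • x - (v - b • x) = (b - a) • x by module] at h2
      rw [sub_eq_zero.1 (kil_rad hp hx h2)]
  choose g g0 hg using h1
  have ad : ∀ x v w, g x (v + w) = g x v + g x w := fun x v w => by
    by_cases hx : x = 0
    · rw [g0 _ _ hx, g0 _ _ hx, g0 _ _ hx, add_zero]
    · obtain ⟨a, ha⟩ := hq'.coef hx v
      obtain ⟨b, hb⟩ := hq'.coef hx w
      have h2 := ha.add hb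
      rw [show v - a • x + (w - b • x) = v + w - (a + b) • x by module] at h2
      rw [hg _ _ _ hx h2, hg _ _ _ hx ha, hg _ _ _ hx hb, mul_add]
  have sm : ∀ (c : ℝ) x v, g x (c • v) = c • g x v := fun c x v => by
    by_cases hx : x = 0
    · rw [g0 _ _ hx, g0 _ _ hx, smul_zero]
    · obtain ⟨a, ha⟩ := hq'.coef hx v
      have h2 := ha.smul c
      rw [show c • (v - a • x) = c • v - (c * a) • x by module] at h2
      rw [hg _ _ _ hx h2, hg _ _ _ hx ha, smul_eq_mul]
      ring
  have z0 : ∀ x, g x 0 = 0 := fun x => by simpa using sm 0 x 0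
  have sy : ∀ x y, g x y = g y x := fun x y => by
    by_cases hx : x = 0
    · rw [g0 _ _ hx, hx, z0]
    by_cases hy : y = 0
    · rw [g0 y _ hy, hy, z0]
    have px : 0 < Φ x := (apply_nonneg Φ x).lt_of_ne' fun h => hx (hp x h)
    have py : 0 < Φ y := (apply_nonneg Φ y).lt_of_ne' fun h => hy (hp y h)
    set k : ℝ := Φ x / Φ y with hk
    have k0 : 0 < k := div_pos px py
    have he : Φ x = Φ (k • y) := by
      rw [map_smul_eq_mul, Real.norm_of_nonneg k0.le, hk, div_mul_cancel₀ _ py.ne']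
    obtain ⟨a, ha⟩ := hq'.coef hx y
    have h2 := ha.smul k
    rw [show k • (y - a • x) = k • y - (k * a) • x by module] at h2
    have h4 := (hq'.swap hx he h2).base' (inv_ne_zero k0.ne')
    rw [smul_smul, inv_mul_cancel₀ k0.ne', one_smul, smul_smul] at h4
    rw [hg _ _ _ hx ha, hg _ _ _ hy h4, hk]
    field_simp
  refine ⟨LinearMap.mk₂ ℝ g (fun x x' v => by rw [sy, ad, sy v, sy v])
    (fun c x v => by rw [sy, sm, sy v]) ad sm, sy, fun x => ?_⟩
  rw [LinearMap.mk₂_apply]
  by_cases hx : x = 0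
  · rw [g0 _ _ hx, hx, map_zero]
    norm_num
  · rw [hg x x 1 hx (by simpa using kil_zero Φ x), mul_one]

end Pool.Agent.Lib.LC40
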